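import Pool.Agent.FS.LiouvilleLevels.Collar

/-!
A connected countably compact complex manifold is exhausted by sigma-compact domains that carry
no nonconstant plurisubharmonic function bounded above. If it is omega-bounded, the domains are
relatively compact, carry no nonconstant plurisubharmonic function, and plurisubharmonic
functions on their collars are locally constant near the boundary.
-/

open Filter Topology
open Pool.Agent.FS.LiouvilleLevels

namespace Pool.Agent.Variants.MP_53f9be_gt.LiouvilleJoined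

theorem result (n : ℕ) (M : Type) [TopologicalSpace M] [T2Space M] [ConnectedSpace M]
    [ChartedSpace (EuclideanSpace ℂ (Fin n)) M]
    [IsManifold (modelWithCornersSelf ℂ (EuclideanSpace ℂ (Fin n))) ⊤ M]
    (hcc : ∀ u : ℕ → M, ∃ x : M, MapClusterPt x atTop u)
    (K₀ : Set M) (hK₀ : IsSigmaCompact K₀) :
    ∃ W : Set M, IsOpen W ∧ IsConnected W ∧ IsSigmaCompact W ∧ K₀ ⊆ W ∧
      (∀ u : M → ℝ, Psh (EuclideanSpace ℂ (Fin n)) u W → BddAbove (u '' W) →
        ∀ x ∈ W, ∀ y ∈ W, u x = u y) ∧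
      ((∀ A : Set M, A.Countable → IsCompact (closure A)) → IsCompact (closure W) ∧
        (∀ u : M → ℝ, Psh (EuclideanSpace ℂ (Fin n)) u W → ∀ x ∈ W, ∀ y ∈ W, u x = u y) ∧
        ∀ K : Set M, IsCompact K → K ⊆ W → ∃ K' : Set M, IsCompact K' ∧ K ⊆ K' ∧ K' ⊆ W ∧
          ∀ u : M → ℝ, Psh (EuclideanSpace ℂ (Fin n)) u (W \ K) →
            ∀ x ∈ W \ K', ∀ᶠ y in 𝓝 x, u y = u x) :=
  main_all (EuclideanSpace ℂ (Fin n)) hcc hK₀

end Pool.Agent.Variants.MP_53f9be_gt.LiouvilleJoined
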